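import Pool.Agent.Helper58.PB.StM

/-!
# Project PB (MP_3923f3_nt), module BXP: periodic functions on a box
-/

set_option autoImplicit false

namespace Pool.Agent.Helper84.PB

open Finset
open Pool.Agent.Helper58.PB
open Pool.Agent.Helper48.BK (Cl thd StLat)

/-- the window `i < u + M t ≤ i + I` is an integer interval of the right length -/
private theorem win_BXP (i I M : ℕ) (u : ℤ) (hM : 1 ≤ M) : ∃ (i' : ℤ) (I' : ℕ),
    |(I' : ℝ) - (I : ℝ) / M| ≤ 1 ∧ ∀ t : ℤ, t ∈ Ico i' (i' + I') ↔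
      ((i : ℤ) < u + M * t ∧ u + M * t ≤ (i : ℤ) + I) := by
  have hMZ : (0 : ℤ) < M := by exact_mod_cast hM
  set A : ℤ := ((i : ℤ) - u) / M with hA
  set B : ℤ := ((i : ℤ) + I - u) / M with hB
  have hAB : A ≤ B := by
    apply Int.ediv_le_ediv hMZ
    have : (0 : ℤ) ≤ I := by positivity
    linarith
  have a1 := Int.mul_ediv_self_le (x := (i : ℤ) - u) (k := M) hMZ.ne'
  have a2 := Int.lt_mul_ediv_self_add (x := (i : ℤ) - u) (k := M) hMZ
  have b1 := Int.mul_ediv_self_le (x := (i : ℤ) + I - u) (k := M) hMZ.ne'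
  have b2 := Int.lt_mul_ediv_self_add (x := (i : ℤ) + I - u) (k := M) hMZ
  rw [← hA] at a1 a2
  rw [← hB] at b1 b2
  refine ⟨A + 1, (B - A).toNat, ?_, ?_⟩
  · have e : (((B - A).toNat : ℕ) : ℝ) = (B : ℝ) - A := by
      have : (((B - A).toNat : ℕ) : ℤ) = B - A := Int.toNat_of_nonneg (by linarith)
      have h2 : ((((B - A).toNat : ℕ) : ℤ) : ℝ) = ((B - A : ℤ) : ℝ) := by rw [this]
      push_cast at h2
      exact h2
    rw [e]
    have hMr : (0 : ℝ) < M := by exact_mod_cast hMZ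
    have a1r : (M : ℝ) * A ≤ i - u := by exact_mod_cast a1
    have a2r : (i : ℝ) - u < (M : ℝ) * A + M := by exact_mod_cast a2
    have b1r : (M : ℝ) * B ≤ i + I - u := by exact_mod_cast b1
    have b2r : (i : ℝ) + I - u < (M : ℝ) * B + M := by exact_mod_cast b2
    have hq : (I : ℝ) = M * ((I : ℝ) / M) := by field_simp
    set q : ℝ := (I : ℝ) / M with hqdef
    rw [abs_le]
    constructor
    · by_contra hcon
      push Not at hcon
      have h3 : (M : ℝ) * ((B : ℝ) - A - q) < M * (-1) := mul_lt_mul_of_pos_left hcon hMr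
      nlinarith
    · by_contra hcon
      push Not at hcon
      have h3 : (M : ℝ) * 1 < M * ((B : ℝ) - A - q) := mul_lt_mul_of_pos_left hcon hMr
      nlinarith
  · intro t
    rw [mem_Ico, Int.toNat_of_nonneg (by linarith : 0 ≤ B - A)]
    have e1 : A + 1 ≤ t ↔ (i : ℤ) < u + M * t := by
      constructor
      · intro h
        have : (M : ℤ) * (A + 1) ≤ M * t := mul_le_mul_of_nonneg_left h hMZ.le
        nlinarith
      · intro h
        by_contra hcon
        have h2 : t ≤ A := by omega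
        have : (M : ℤ) * t ≤ M * A := mul_le_mul_of_nonneg_left h2 hMZ.le
        nlinarith
    have e2 : t < A + 1 + (B - A) ↔ u + M * t ≤ (i : ℤ) + I := by
      constructor
      · intro h
        have h2 : t ≤ B := by omega
        have : (M : ℤ) * t ≤ M * B := mul_le_mul_of_nonneg_left h2 hMZ.le
        nlinarith
      · intro h
        by_contra hcon
        have h2 : B + 1 ≤ t := by omega
        have : (M : ℤ) * (B + 1) ≤ M * t := mul_le_mul_of_nonneg_left h2 hMZ.le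
        nlinarith
    rw [e1, e2]

private theorem dv_BXP (c M X u : ℤ) (hc : 0 < c) :
    (c ∣ X ∧ M ∣ X / c - u) ↔ c * M ∣ X - c * u := by
  constructor
  · rintro ⟨⟨w, rfl⟩, h⟩
    rw [Int.mul_ediv_cancel_left w hc.ne'] at h
    rw [← mul_sub]
    exact mul_dvd_mul_left c h
  · intro h
    have h1 : c ∣ X := by
      have h2 : c ∣ X - c * u := (Dvd.intro _ rfl : c ∣ c * M).trans h
      have h3 := dvd_add h2 (Dvd.intro u rfl : c ∣ c * u)
      simpa using h3
    obtain ⟨w, rfl⟩ := h1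
    refine ⟨Dvd.intro _ rfl, ?_⟩
    rw [Int.mul_ediv_cancel_left w hc.ne']
    rw [← mul_sub] at h
    exact (mul_dvd_mul_iff_left hc.ne').mp h

/-- the pairs of a box in a residue class -/
private theorem cnt_BXP (hlat : StLat) (a b c M i I j J : ℕ) (d u₁ u₂ u₃ : ℤ) (hc : 1 ≤ c)
    (hM : 1 ≤ M) (hg : Nat.gcd a (Nat.gcd b c) = 1) (hdv : (M : ℤ) ∣ a * u₁ + b * u₂ - c * u₃ - d) :
    |(((Bx a b c d i I j J).filter (fun v => (M : ℤ) ∣ (v.1 : ℤ) - u₁ ∧
      (M : ℤ) ∣ (v.2 : ℤ) - u₂ ∧ (M : ℤ) ∣ thd a b c d v - u₃)).card : ℝ) -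
        (I : ℝ) * J / (c * (M : ℝ) ^ 2)| ≤ 6 * (I + J + 1) := by
  obtain ⟨K, hK⟩ := hdv
  obtain ⟨i', I', hI, hIt⟩ := win_BXP i I M u₁ hM
  obtain ⟨j', J', hJ, hJt⟩ := win_BXP j J M u₂ hM
  have hL := hlat a b c (-K) i' j' I' J' hc hg
  have hcZ : (0 : ℤ) < c := by exact_mod_cast hc
  have hMZ : (0 : ℤ) < M := by exact_mod_cast hM
  have hi0 : (0 : ℤ) ≤ i := by positivity
  have hj0 : (0 : ℤ) ≤ j := by positivity
  have hcard : ((Bx a b c d i I j J).filter (fun v => (M : ℤ) ∣ (v.1 : ℤ) - u₁ ∧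
      (M : ℤ) ∣ (v.2 : ℤ) - u₂ ∧ (M : ℤ) ∣ thd a b c d v - u₃)).card =
      ((((Ico i' (i' + I')) ×ˢ (Ico j' (j' + J'))).filter
      (fun v : ℤ × ℤ => (c : ℤ) ∣ a * v.1 + b * v.2 - (-K))).card) := by
    symm
    have key : ∀ s t : ℤ, ((c : ℤ) ∣ a * s + b * t - (-K)) ↔
        ((c : ℤ) ∣ a * (u₁ + M * s) + b * (u₂ + M * t) - d ∧
          (M : ℤ) ∣ (a * (u₁ + M * s) + b * (u₂ + M * t) - d) / c - u₃) := by
      intro s t
      rw [dv_BXP _ _ _ _ hcZ]
      have e : a * (u₁ + M * s) + b * (u₂ + M * t) - d - c * u₃ =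
          M * (a * s + b * t - (-K)) := by linear_combination hK
      rw [e, mul_comm (c : ℤ) M]
      exact (mul_dvd_mul_iff_left hMZ.ne').symm
    apply Finset.card_bij' (i := fun (v : ℤ × ℤ) _ => ((u₁ + M * v.1).toNat, (u₂ + M * v.2).toNat))
      (j := fun (v : ℕ × ℕ) _ => (((v.1 : ℤ) - u₁) / M, ((v.2 : ℤ) - u₂) / M))
    · rintro ⟨s, t⟩ h
      simp only [mem_filter, mem_product] at h
      obtain ⟨⟨hs, ht⟩, hc2⟩ := h
      rw [hIt] at hs
      rw [hJt] at ht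
      have hsp : 0 < u₁ + M * s := by linarith [hs.1]
      have htp : 0 < u₂ + M * t := by linarith [ht.1]
      have es : (((u₁ + M * s).toNat : ℕ) : ℤ) = u₁ + M * s := Int.toNat_of_nonneg hsp.le
      have et : (((u₂ + M * t).toNat : ℕ) : ℤ) = u₂ + M * t := Int.toNat_of_nonneg htp.le
      have hk := (key s t).mp hc2
      simp only [Bx, mem_filter, mem_product, mem_Ioc]
      simp only [thd]
      have g1 : i < (u₁ + M * s).toNat := by
        zify; rw [es]; exact hs.1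
      have g2 : (u₁ + M * s).toNat ≤ i + I := by
        zify; rw [es]; exact hs.2
      have g3 : j < (u₂ + M * t).toNat := by
        zify; rw [et]; exact ht.1
      have g4 : (u₂ + M * t).toNat ≤ j + J := by
        zify; rw [et]; exact ht.2
      refine ⟨⟨⟨⟨g1, g2⟩, g3, g4⟩, ?_⟩, ?_, ?_, ?_⟩
      · rw [es, et]; exact hk.1
      · rw [es]; exact ⟨s, by ring⟩
      · rw [et]; exact ⟨t, by ring⟩
      · rw [es, et]; exact hk.2
    · rintro ⟨n, m⟩ h
      simp only [Bx, mem_filter, mem_product, mem_Ioc] at h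
      simp only [thd] at h
      obtain ⟨⟨⟨⟨g1, g2⟩, g3, g4⟩, h5⟩, ⟨s, hs⟩, ⟨t, ht⟩, h6⟩ := h
      have es : (n : ℤ) = u₁ + M * s := by linarith
      have et : (m : ℤ) = u₂ + M * t := by linarith
      have es2 : ((n : ℤ) - u₁) / M = s := by
        rw [hs]; exact Int.mul_ediv_cancel_left s hMZ.ne'
      have et2 : ((m : ℤ) - u₂) / M = t := by
        rw [ht]; exact Int.mul_ediv_cancel_left t hMZ.ne'
      simp only [mem_filter, mem_product]
      rw [es2, et2, hIt, hJt, key, ← es, ← et]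
      refine ⟨⟨⟨by exact_mod_cast g1, by exact_mod_cast g2⟩, by exact_mod_cast g3,
        by exact_mod_cast g4⟩, h5, h6⟩
    · rintro ⟨s, t⟩ h
      simp only [mem_filter, mem_product] at h
      obtain ⟨⟨hs, ht⟩, hc2⟩ := h
      rw [hIt] at hs
      rw [hJt] at ht
      have hsp : 0 < u₁ + M * s := by linarith [hs.1]
      have htp : 0 < u₂ + M * t := by linarith [ht.1]
      have es : (((u₁ + M * s).toNat : ℕ) : ℤ) = u₁ + M * s := Int.toNat_of_nonneg hsp.le
      have et : (((u₂ + M * t).toNat : ℕ) : ℤ) = u₂ + M * t := Int.toNat_of_nonneg htp.le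
      simp only
      rw [es, et]
      ext
      · simp only
        rw [add_sub_cancel_left]
        exact Int.mul_ediv_cancel_left s hMZ.ne'
      · simp only
        rw [add_sub_cancel_left]
        exact Int.mul_ediv_cancel_left t hMZ.ne'
    · rintro ⟨n, m⟩ h
      simp only [mem_filter] at h
      obtain ⟨-, hs, ht, h6⟩ := h
      simp only
      rw [Int.mul_ediv_cancel' hs, Int.mul_ediv_cancel' ht]
      ext
      · simp
      · simp
  rw [hcard]
  have hcR : (1 : ℝ) ≤ c := by exact_mod_cast hc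
  have hMR : (1 : ℝ) ≤ M := by exact_mod_cast hM
  have hI00 : (0 : ℝ) ≤ I := by positivity
  have hJ00 : (0 : ℝ) ≤ J := by positivity
  set x : ℝ := (I : ℝ) / M with hx
  set y : ℝ := (J : ℝ) / M with hy
  have hx0 : 0 ≤ x := by positivity
  have hy0 : 0 ≤ y := by positivity
  have hxI : x ≤ I := div_le_self hI00 hMR
  have hyJ : y ≤ J := div_le_self hJ00 hMR
  have emain : (I : ℝ) * J / (c * (M : ℝ) ^ 2) = x * y / c := by
    rw [hx, hy]
    have : (M : ℝ) ≠ 0 := by positivity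
    field_simp
  rw [emain]
  obtain ⟨hI1, hI2⟩ := abs_le.mp hI
  obtain ⟨hJ1, hJ2⟩ := abs_le.mp hJ
  have hI0 : (0 : ℝ) ≤ I' := by positivity
  have hJ0 : (0 : ℝ) ≤ J' := by positivity
  have hd : |(I' : ℝ) * J' / c - x * y / c| ≤ x + y + 1 := by
    have e : (I' : ℝ) * J' / c - x * y / c = (((I' : ℝ) - x) * J' + x * (J' - y)) / c := by ring
    rw [e, abs_div, abs_of_pos (lt_of_lt_of_le one_pos hcR)]
    have h1 : |((I' : ℝ) - x) * J' + x * (J' - y)| ≤ x + y + 1 := by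
      calc |((I' : ℝ) - x) * J' + x * (J' - y)| ≤ |((I' : ℝ) - x) * J'| + |x * (J' - y)| :=
            abs_add_le _ _
        _ = |(I' : ℝ) - x| * J' + x * |J' - y| := by
            rw [abs_mul, abs_mul, abs_of_nonneg hJ0, abs_of_nonneg hx0]
        _ ≤ 1 * J' + x * 1 := by
            apply add_le_add
            · exact mul_le_mul_of_nonneg_right hI hJ0
            · exact mul_le_mul_of_nonneg_left hJ hx0
        _ ≤ x + y + 1 := by linarith
    calc _ ≤ (x + y + 1) / c := by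
          apply div_le_div_of_nonneg_right h1 (by linarith)
      _ ≤ x + y + 1 := div_le_self (by linarith) hcR
  obtain ⟨hd1, hd2⟩ := abs_le.mp hd
  obtain ⟨hL1, hL2⟩ := abs_le.mp hL
  rw [abs_le]
  constructor <;> linarith

private theorem mod_BXP (n u M : ℕ) (hu : u < M) : n % M = u ↔ (M : ℤ) ∣ (n : ℤ) - u := by
  constructor
  · intro h
    rw [← h]
    have h1 := Nat.mod_add_div n M
    exact ⟨(n / M : ℕ), by
      have h2 : ((n % M + M * (n / M) : ℕ) : ℤ) = (n : ℤ) := by rw [h1]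
      push_cast at h2 ⊢
      linarith⟩
  · intro h
    have h1 : u ≡ n [MOD M] := (Nat.modEq_iff_dvd).2 h
    have h2 : u % M = n % M := h1
    rw [← h2, Nat.mod_eq_of_lt hu]

theorem hBxp (hlat : StLat) (hlft : StLft) : StBxp := by
  intro a b c M i I j J d φ B ha hb hc hM hg hB hφ hper hpos
  have hcZ : (0 : ℤ) < c := by exact_mod_cast hc
  have hMp : 0 < M := hM
  have hMR : (0 : ℝ) < M := by exact_mod_cast hMp
  have hMC : (M : ℂ) ≠ 0 := by exact_mod_cast hMR.ne'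
  have hcC : (c : ℂ) ≠ 0 := by exact_mod_cast hcZ.ne'
  set S := Bx a b c d i I j J with hS
  have hCl : (Cl a b c d M).card = M ^ 2 := (hlft a b c M 1 d hM le_rfl hg).1
  -- the third coordinate
  have hT : ∀ v ∈ S, (c : ℤ) * thd a b c d v = a * v.1 + b * v.2 - d ∧ 0 < thd a b c d v := by
    intro v hv
    rw [hS, Bx, mem_filter, mem_product, mem_Ioc, mem_Ioc] at hv
    obtain ⟨⟨⟨h1, h2⟩, h3, h4⟩, h5⟩ := hv
    have h6 : (c : ℤ) * thd a b c d v = a * v.1 + b * v.2 - d := by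
      unfold thd
      exact Int.mul_ediv_cancel' h5
    have h7 := hpos v.1 v.2 h1 h2 h3 h4
    have h8 : 0 < (c : ℤ) * thd a b c d v := by rw [h6]; linarith
    exact ⟨h6, (mul_pos_iff_of_pos_left hcZ).1 h8⟩
  set cls : ℕ × ℕ → ℕ × ℕ × ℕ := fun v => (v.1 % M, v.2 % M, (thd a b c d v).toNat % M) with hcls
  have hmaps : ∀ v ∈ S, cls v ∈ Cl a b c d M := by
    intro v hv
    obtain ⟨h1, h2⟩ := hT v hv
    have h3 : (((thd a b c d v).toNat : ℕ) : ℤ) = thd a b c d v := Int.toNat_of_nonneg h2.le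
    simp only [Cl, hcls, mem_filter, mem_product, mem_range]
    refine ⟨⟨Nat.mod_lt _ hMp, Nat.mod_lt _ hMp, Nat.mod_lt _ hMp⟩, ?_⟩
    have e1 := (mod_BXP v.1 (v.1 % M) M (Nat.mod_lt _ hMp)).1 rfl
    have e2 := (mod_BXP v.2 (v.2 % M) M (Nat.mod_lt _ hMp)).1 rfl
    have e3 := (mod_BXP (thd a b c d v).toNat ((thd a b c d v).toNat % M) M
      (Nat.mod_lt _ hMp)).1 rfl
    rw [h3] at e3
    have e4 : (a : ℤ) * ((v.1 % M : ℕ) : ℤ) + b * ((v.2 % M : ℕ) : ℤ) -
        c * (((thd a b c d v).toNat % M : ℕ) : ℤ) - d =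
        -(a * ((v.1 : ℤ) - ((v.1 % M : ℕ) : ℤ))) - b * ((v.2 : ℤ) - ((v.2 % M : ℕ) : ℤ)) +
          c * (thd a b c d v - (((thd a b c d v).toNat % M : ℕ) : ℤ)) := by
      linear_combination -h1
    rw [e4]
    exact dvd_add (dvd_sub ((dvd_neg).2 (Dvd.dvd.mul_left e1 _)) (Dvd.dvd.mul_left e2 _))
      (Dvd.dvd.mul_left e3 _)
  have hsum : ∑ v ∈ S, φ v.1 v.2 (thd a b c d v).toNat =
      ∑ u ∈ Cl a b c d M, ((S.filter fun v => cls v = u).card : ℂ) * φ u.1 u.2.1 u.2.2 := by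
    rw [← sum_fiberwise_of_maps_to hmaps]
    refine sum_congr rfl fun u _ => ?_
    rw [← nsmul_eq_mul, ← sum_const]
    refine sum_congr rfl fun v hv => ?_
    have h1 := (mem_filter.1 hv).2
    rw [← h1]
    exact hper _ _ _ _ _ _ (Nat.mod_modEq _ _).symm (Nat.mod_modEq _ _).symm
      (Nat.mod_modEq _ _).symm
  have hmain : ((I : ℂ) * J / c) * En a b c d M φ =
      ∑ u ∈ Cl a b c d M, (((I : ℝ) * J / (c * (M : ℝ) ^ 2) : ℝ) : ℂ) * φ u.1 u.2.1 u.2.2 := by
    unfold En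
    rw [← mul_sum, ← mul_assoc]
    congr 1
    push_cast
    field_simp
  rw [hsum, hmain, ← sum_sub_distrib]
  have hterm : ∀ u ∈ Cl a b c d M,
      ‖((S.filter fun v => cls v = u).card : ℂ) * φ u.1 u.2.1 u.2.2 -
        (((I : ℝ) * J / (c * (M : ℝ) ^ 2) : ℝ) : ℂ) * φ u.1 u.2.1 u.2.2‖ ≤
      6 * (I + J + 1) * B := by
    intro u hu
    simp only [Cl, mem_filter, mem_product, mem_range] at hu
    obtain ⟨⟨hu1, hu2, hu3⟩, hu4⟩ := hu
    have hfil : (S.filter fun v => cls v = u) = S.filter (fun v => (M : ℤ) ∣ (v.1 : ℤ) - u.1 ∧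
        (M : ℤ) ∣ (v.2 : ℤ) - u.2.1 ∧ (M : ℤ) ∣ thd a b c d v - u.2.2) := by
      refine filter_congr fun v hv => ?_
      have h3 : (((thd a b c d v).toNat : ℕ) : ℤ) = thd a b c d v :=
        Int.toNat_of_nonneg (hT v hv).2.le
      rw [← mod_BXP v.1 u.1 M hu1, ← mod_BXP v.2 u.2.1 M hu2, ← h3,
        ← mod_BXP (thd a b c d v).toNat u.2.2 M hu3]
      simp only [hcls, Prod.ext_iff]
    have hcnt := cnt_BXP hlat a b c M i I j J d u.1 u.2.1 u.2.2 hc hM hg hu4
    rw [← hS, ← hfil] at hcnt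
    rw [← sub_mul, norm_mul]
    have e : ((S.filter fun v => cls v = u).card : ℂ) -
        (((I : ℝ) * J / (c * (M : ℝ) ^ 2) : ℝ) : ℂ) =
        ((((S.filter fun v => cls v = u).card : ℝ) - (I : ℝ) * J / (c * (M : ℝ) ^ 2) : ℝ) : ℂ) := by
      push_cast
      ring
    rw [e, Complex.norm_real, Real.norm_eq_abs]
    exact mul_le_mul hcnt (hφ _ _ _) (norm_nonneg _) (by positivity)
  calc _ ≤ ∑ u ∈ Cl a b c d M, ‖((S.filter fun v => cls v = u).card : ℂ) * φ u.1 u.2.1 u.2.2 -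
        (((I : ℝ) * J / (c * (M : ℝ) ^ 2) : ℝ) : ℂ) * φ u.1 u.2.1 u.2.2‖ := norm_sum_le _ _
    _ ≤ ∑ u ∈ Cl a b c d M, 6 * (I + J + 1) * B := sum_le_sum hterm
    _ = 6 * B * (M : ℝ) ^ 2 * (I + J + 1) := by
        rw [sum_const, hCl, nsmul_eq_mul]
        push_cast
        ring

end Pool.Agent.Helper84.PB
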