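import Pool.Agent.Helper58.PB.StS

/-!
# Project PB (MP_3923f3_nt), module CVL: convolution with the averaging kernel
-/

set_option autoImplicit false

namespace Pool.Agent.Helper84.PB

open Finset ArithmeticFunction
open Pool.Agent.Helper58.PB
open Pool.Agent.Helper48.BK (ex th)
open Pool.Agent.Helper23.MV (PCh)

private theorem ex_add_CVL (s t : ℝ) : ex (s + t) = ex s * ex t := by
  unfold ex
  rw [← Complex.exp_add]
  congr 1
  push_cast
  ring

private theorem norm_ex_CVL (t : ℝ) : ‖ex t‖ = 1 := by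
  unfold ex
  rw [show (2 * (Real.pi : ℂ) * t * Complex.I) = ((2 * Real.pi * t : ℝ) : ℂ) * Complex.I by
    push_cast; ring]
  exact Complex.norm_exp_ofReal_mul_I _

private theorem th_bd_CVL (n y : ℕ) (hn : n ≤ y) (hy : 1 ≤ y) : |th n| ≤ Real.log y := by
  have hy' : (1 : ℝ) ≤ y := by exact_mod_cast hy
  unfold th
  split_ifs with h
  · have h1 : (1 : ℝ) ≤ n := by exact_mod_cast h.one_lt.le
    rw [abs_of_nonneg (Real.log_nonneg h1)]
    exact Real.log_le_log (by linarith) (by exact_mod_cast hn)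
  · rw [abs_zero]; exact Real.log_nonneg hy'

private theorem th_zero_CVL : th 0 = 0 := by
  unfold th
  rw [if_neg Nat.not_prime_zero]

/-- one shift -/
private theorem shift_CVL (g : ℕ → ℂ) (h0 : g 0 = 0) (B : ℝ) (hB : 0 ≤ B) (y : ℕ)
    (hg : ∀ n ≤ y, ‖g n‖ ≤ B) (β : ℝ) (j : ℕ) :
    ‖∑ n ∈ Ioc 0 y, g (n - j) * ex (n * β) - ex (j * β) * ∑ n ∈ Ioc 0 y, g n * ex (n * β)‖ ≤
      j * B := by
  have h1 : ∑ n ∈ Ioc 0 y, g (n - j) * ex (n * β) =
      ex (j * β) * ∑ n ∈ Ioc 0 (y - j), g n * ex (n * β) := by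
    rw [mul_sum]
    symm
    apply sum_of_injOn (fun n => n + j)
    · intro a _ b _ hab
      exact Nat.add_right_cancel hab
    · intro a ha
      simp only [coe_Ioc, Set.mem_Ioc] at ha ⊢
      omega
    · intro n hn hn'
      have : n ≤ j := by
        by_contra hlt
        push Not at hlt
        apply hn'
        simp only [coe_Ioc, Set.mem_image, Set.mem_Ioc]
        rw [mem_Ioc] at hn
        exact ⟨n - j, by omega, by omega⟩
      rw [Nat.sub_eq_zero_of_le this, h0, zero_mul]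
    · intro n _
      rw [Nat.add_sub_cancel]
      push_cast
      rw [add_mul, ex_add_CVL]
      ring
  have h2 : ∑ n ∈ Ioc 0 y, g n * ex (n * β) =
      ∑ n ∈ Ioc 0 (y - j), g n * ex (n * β) + ∑ n ∈ Ioc (y - j) y, g n * ex (n * β) := by
    rw [← sum_union]
    · rw [Ioc_union_Ioc_eq_Ioc (Nat.zero_le _) (Nat.sub_le _ _)]
    · exact Ioc_disjoint_Ioc_of_le le_rfl
  rw [h1, h2, mul_add, sub_add_cancel_left, norm_neg, norm_mul, norm_ex_CVL, one_mul]
  calc ‖∑ n ∈ Ioc (y - j) y, g n * ex (n * β)‖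
      ≤ ∑ n ∈ Ioc (y - j) y, ‖g n * ex (n * β)‖ := norm_sum_le _ _
    _ ≤ ∑ n ∈ Ioc (y - j) y, B := by
        refine sum_le_sum fun n hn => ?_
        rw [norm_mul, norm_ex_CVL, mul_one]
        exact hg n (mem_Ioc.1 hn).2
    _ = ((y - (y - j) : ℕ) : ℝ) * B := by rw [sum_const, Nat.card_Ioc, nsmul_eq_mul]
    _ ≤ j * B := by
        refine mul_le_mul_of_nonneg_right ?_ hB
        exact_mod_cast (by omega : y - (y - j) ≤ j)

theorem hCvl : StCvl := by
  intro c L y β hL hy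
  have hy' : (1 : ℝ) ≤ y := by exact_mod_cast hy
  have hL' : (0 : ℝ) < L := by exact_mod_cast hL
  have hLc : (L : ℂ) ≠ 0 := by exact_mod_cast hL'.ne'
  have hlog := Real.log_nonneg hy'
  set g : ℕ → ℂ := fun n => ((th n : ℝ) : ℂ) * c.ev n with hg
  have hg0 : g 0 = 0 := by rw [hg]; simp [th_zero_CVL]
  have hgB : ∀ n ≤ y, ‖g n‖ ≤ Real.log y := by
    intro n hn
    simp only [hg]
    rw [norm_mul, Complex.norm_real, Real.norm_eq_abs]
    have h1 := th_bd_CVL n y hn hy
    have h2 : ‖c.ev n‖ ≤ 1 := DirichletCharacter.norm_le_one _ _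
    calc |th n| * ‖c.ev n‖ ≤ Real.log y * 1 :=
          mul_le_mul h1 h2 (norm_nonneg _) hlog
      _ = Real.log y := mul_one _
  have e1 : ∑ n ∈ Ioc 0 y, Av c L n * ex (n * β) - kk L β * Tc c y β =
      (1 / (L : ℂ)) * ∑ j ∈ range L, (∑ n ∈ Ioc 0 y, g (n - j) * ex (n * β) -
        ex (j * β) * ∑ n ∈ Ioc 0 y, g n * ex (n * β)) := by
    rw [sum_sub_distrib, mul_sub]
    congr 1
    · unfold Av
      rw [sum_comm, mul_sum]
      refine sum_congr rfl fun n _ => ?_
      rw [mul_assoc, sum_mul]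
    · unfold kk Tc
      rw [← sum_mul, mul_assoc]
  rw [e1, norm_mul]
  have h2 : ‖(1 / (L : ℂ))‖ = 1 / (L : ℝ) := by
    rw [norm_div, norm_one, Complex.norm_natCast]
  rw [h2]
  have h3 : ‖∑ j ∈ range L, (∑ n ∈ Ioc 0 y, g (n - j) * ex (n * β) -
      ex (j * β) * ∑ n ∈ Ioc 0 y, g n * ex (n * β))‖ ≤ L * (L * Real.log y) := by
    calc _ ≤ ∑ j ∈ range L, ‖∑ n ∈ Ioc 0 y, g (n - j) * ex (n * β) -
          ex (j * β) * ∑ n ∈ Ioc 0 y, g n * ex (n * β)‖ := norm_sum_le _ _
      _ ≤ ∑ j ∈ range L, L * Real.log y := by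
          refine sum_le_sum fun j hj => ?_
          refine (shift_CVL g hg0 _ hlog y hgB β j).trans ?_
          refine mul_le_mul_of_nonneg_right ?_ hlog
          exact_mod_cast (mem_range.1 hj).le
      _ = L * (L * Real.log y) := by rw [sum_const, card_range, nsmul_eq_mul]
  calc 1 / (L : ℝ) * _ ≤ 1 / (L : ℝ) * (L * (L * Real.log y)) :=
        mul_le_mul_of_nonneg_left h3 (by positivity)
    _ = L * Real.log y := by field_simp

end Pool.Agent.Helper84.PB
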