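import Pool.Agent.Helper58.PB.StA

/-!
# Project PB (MP_3923f3_nt), module INX: from natural to integer coefficients
-/

set_option autoImplicit false

namespace Pool.Agent.Helper84.PB

open Finset
open Pool.Agent.Helper58.PB
open Pool.Agent.Helper48.BK (AdN Admissible Solv)

private theorem gcd_INX (a b c : ℤ) : gcd a (gcd b c) = 1 ↔
    Nat.gcd a.natAbs (Nat.gcd b.natAbs c.natAbs) = 1 := by
  rw [← Int.coe_gcd b c, ← Int.coe_gcd a]
  constructor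
  · intro h
    have h' : Int.gcd a (Int.gcd b c : ℤ) = 1 := by exact_mod_cast h
    simpa [Int.gcd] using h'
  · intro h
    have h' : Int.gcd a (Int.gcd b c : ℤ) = 1 := by simpa [Int.gcd] using h
    exact_mod_cast h'

/-- admissibility of the natural triple of a sign pattern -/
private theorem adn_INX (a b c d e : ℤ) (he : e = 1 ∨ e = -1)
    (h1 : Even (a + b + c - d)) (h2 : gcd a (gcd b c) = 1) (h3 : gcd d (gcd a b) = 1)
    (h4 : gcd d (gcd a c) = 1) (h5 : gcd d (gcd b c) = 1)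
    (ha : 0 < e * a) (hb : 0 < e * b) (hc : e * c < 0) :
    AdN a.natAbs b.natAbs c.natAbs (e * d) ∧ ∀ p q r : ℕ,
      ((a.natAbs : ℤ) * p + b.natAbs * q = c.natAbs * r + e * d ↔ a * p + b * q + c * r = d) := by
  rw [gcd_INX] at h2 h3 h4 h5
  have hde : (e * d).natAbs = d.natAbs := by rcases he with rfl | rfl <;> simp
  have ea : (a.natAbs : ℤ) = e * a := by
    rcases he with rfl | rfl <;> omega
  have eb : (b.natAbs : ℤ) = e * b := by
    rcases he with rfl | rfl <;> omega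
  have ec : (c.natAbs : ℤ) = -(e * c) := by
    rcases he with rfl | rfl <;> omega
  refine ⟨⟨?_, h2, by rwa [hde], by rwa [hde], by rwa [hde]⟩, ?_⟩
  · rw [ea, eb, ec]
    rcases he with rfl | rfl
    · rw [Int.even_iff] at h1 ⊢
      omega
    · rw [Int.even_iff] at h1 ⊢
      omega
  · intro p q r
    rw [ea, eb, ec]
    rcases he with rfl | rfl
    · constructor <;> intro h <;> linarith
    · constructor <;> intro h <;> linarith

private theorem bd_INX (μ : ℝ) (N m : ℕ) (M : ℝ) (d e : ℤ) (he : e = 1 ∨ e = -1) :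
    bd μ N m M (e * d) = bd μ N m M d := by
  have h : |(((e * d : ℤ)) : ℝ)| = |(d : ℝ)| := by
    rcases he with rfl | rfl <;> simp
  unfold bd
  rw [h]

private theorem mx_INX (a b c : ℤ) :
    ((max 3 (max a.natAbs (max b.natAbs c.natAbs)) : ℕ) : ℝ) =
      ((max 3 (max |a| (max |b| |c|)) : ℤ) : ℝ) := by
  have h : (((max 3 (max a.natAbs (max b.natAbs c.natAbs)) : ℕ)) : ℤ) =
      max 3 (max |a| (max |b| |c|)) := by
    push_cast
    rfl
  rw [← h]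
  rfl

private theorem exc_INX (μ : ℝ) (N m : ℕ) (a b c d : ℤ) (hadm : Admissible a b c d)
    (hns : ¬ Solv a b c d (bd μ N m ((max 3 (max |a| (max |b| |c|)) : ℤ) : ℝ) d)) :
    Ex1 μ N m a.natAbs b.natAbs c.natAbs ∨ Ex2 μ N m a.natAbs b.natAbs c.natAbs ∨
      Ex2 μ N m b.natAbs a.natAbs c.natAbs := by
  obtain ⟨ha, hb, hc, hp, hn, hev, hg1, hg2, hg3, hg4⟩ := hadm
  have key : ∀ e : ℤ, (e = 1 ∨ e = -1) →
      ((0 < e * a ∧ 0 < e * b ∧ e * c < 0) ∨ (0 < e * a ∧ 0 < e * c ∧ e * b < 0) ∨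
        (0 < e * b ∧ 0 < e * c ∧ e * a < 0)) →
      Ex1 μ N m a.natAbs b.natAbs c.natAbs ∨ Ex2 μ N m a.natAbs b.natAbs c.natAbs ∨
        Ex2 μ N m b.natAbs a.natAbs c.natAbs := by
    intro e he hpat
    rcases hpat with ⟨h1, h2, h3⟩ | ⟨h1, h2, h3⟩ | ⟨h1, h2, h3⟩
    · obtain ⟨hA, hE⟩ := adn_INX a b c d e he hev hg1 hg2 hg3 hg4 h1 h2 h3
      refine Or.inl ⟨e * d, hA, ?_⟩
      rintro ⟨p, q, r, hp, hq, hr, heq, hm⟩
      rw [bd_INX μ N m _ d e he, mx_INX] at hm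
      exact hns ⟨p, q, r, hp, hq, hr, (hE p q r).1 heq, hm⟩
    · obtain ⟨hA, hE⟩ := adn_INX a c b d e he (by rwa [show a + c + b - d = a + b + c - d by ring])
        (by rwa [gcd_comm c b]) hg3 hg2 (by rwa [gcd_comm c b]) h1 h2 h3
      refine Or.inr (Or.inl ⟨e * d, hA, ?_⟩)
      rintro ⟨p, q, r, hp, hq, hr, heq, hm⟩
      rw [bd_INX μ N m _ d e he, mx_INX] at hm
      have h9 := (hE p r q).1 heq
      exact hns ⟨p, q, r, hp, hq, hr, by linarith, hm⟩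
    · obtain ⟨hA, hE⟩ := adn_INX b c a d e he (by rwa [show b + c + a - d = a + b + c - d by ring])
        (by
          rw [gcd_INX] at hg1 ⊢
          rw [← Nat.gcd_assoc, Nat.gcd_comm]; exact hg1) hg4 (by rwa [gcd_comm b a])
        (by rwa [gcd_comm c a]) h1 h2 h3
      refine Or.inr (Or.inr ⟨e * d, hA, ?_⟩)
      rintro ⟨p, q, r, hp, hq, hr, heq, hm⟩
      rw [bd_INX μ N m _ d e he, mx_INX] at hm
      have h9 := (hE p r q).1 heq
      refine hns ⟨q, p, r, hq, hp, hr, by linarith, ?_⟩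
      rw [max_left_comm q p r, max_left_comm |a| |b| |c|]
      exact hm
  rcases lt_or_gt_of_ne ha with ha' | ha' <;> rcases lt_or_gt_of_ne hb with hb' | hb' <;>
    rcases lt_or_gt_of_ne hc with hc' | hc'
  · exact absurd ⟨ha', hb', hc'⟩ hn
  · exact key (-1) (Or.inr rfl) (Or.inl ⟨by linarith, by linarith, by linarith⟩)
  · exact key (-1) (Or.inr rfl) (Or.inr (Or.inl ⟨by linarith, by linarith, by linarith⟩))
  · exact key 1 (Or.inl rfl) (Or.inr (Or.inr ⟨by linarith, by linarith, by linarith⟩))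
  · exact key (-1) (Or.inr rfl) (Or.inr (Or.inr ⟨by linarith, by linarith, by linarith⟩))
  · exact key 1 (Or.inl rfl) (Or.inr (Or.inl ⟨by linarith, by linarith, by linarith⟩))
  · exact key 1 (Or.inl rfl) (Or.inl ⟨by linarith, by linarith, by linarith⟩)
  · exact absurd ⟨ha', hb', hc'⟩ hp

private theorem sgn_INX (a : ℤ) (ha : a ≠ 0) :
    a.sign ∈ ({1, -1} : Finset ℤ) ∧ a.sign * (a.natAbs : ℤ) = a := by
  refine ⟨?_, Int.sign_mul_natAbs a⟩
  rcases lt_or_gt_of_ne ha with h | h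
  · rw [Int.sign_eq_neg_one_of_neg h]; simp
  · rw [Int.sign_eq_one_of_pos h]; simp

theorem hInx : StInx := by
  classical
  intro hNap μ hμ
  obtain ⟨δ', m₀, hδ', hN⟩ := hNap μ hμ
  have ht : Filter.Tendsto (fun n : ℕ => (n : ℝ) ^ (δ' / 2)) Filter.atTop Filter.atTop :=
    (tendsto_rpow_atTop (by linarith)).comp tendsto_natCast_atTop_atTop
  obtain ⟨m₁, hm₁⟩ := Filter.eventually_atTop.1
    (((ht.eventually_ge_atTop (16 : ℝ)).and (tendsto_natCast_atTop_atTop.eventually_ge_atTop m₀)).and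
      (Filter.eventually_ge_atTop 1))
  refine ⟨δ' / 2, by linarith, m₁, fun N m hm hN1 hNm => ?_⟩
  obtain ⟨⟨h16, hm0⟩, hm1⟩ := hm₁ m hm
  have hN' := hN N m hm0 hN1 hNm
  set S := ((Icc 1 N) ×ˢ (Icc 1 N) ×ˢ (Icc 1 m)).filter
    (fun v : ℕ × ℕ × ℕ => Ex1 μ N m v.1 v.2.1 v.2.2 ∨ Ex2 μ N m v.1 v.2.1 v.2.2) with hS
  set g : Bool → (ℤ × ℤ × ℤ) → (ℕ × ℕ × ℕ) → ℤ × ℤ × ℤ := fun i e v =>
    if i then (e.1 * v.1, e.2.1 * v.2.1, e.2.2 * v.2.2)
    else (e.1 * v.2.1, e.2.1 * v.1, e.2.2 * v.2.2) with hg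
  set E : Finset (ℤ × ℤ × ℤ) := ({1, -1} : Finset ℤ) ×ˢ ({1, -1} : Finset ℤ) ×ˢ ({1, -1} : Finset ℤ)
    with hE
  set W := ((univ : Finset Bool) ×ˢ E).biUnion (fun w => S.image (g w.1 w.2)) with hW
  have hsub : (((Icc (-(N : ℤ)) N) ×ˢ (Icc (-(N : ℤ)) N) ×ˢ (Icc (-(m : ℤ)) m)).filter
      (fun v : ℤ × ℤ × ℤ => ∃ d : ℤ, Admissible v.1 v.2.1 v.2.2 d ∧
      ¬ Solv v.1 v.2.1 v.2.2 d
        (bd μ N m ((max 3 (max |v.1| (max |v.2.1| |v.2.2|)) : ℤ) : ℝ) d))) ⊆ W := by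
    rintro ⟨a, b, c⟩ hv
    rw [Finset.mem_filter] at hv
    obtain ⟨hv1, d, hd1, hd2⟩ := hv
    rw [Finset.mem_product, Finset.mem_product, Finset.mem_Icc, Finset.mem_Icc,
      Finset.mem_Icc] at hv1
    obtain ⟨⟨ha1, ha2⟩, ⟨hb1, hb2⟩, ⟨hc1, hc2⟩⟩ := hv1
    simp only at ha1 ha2 hb1 hb2 hc1 hc2 hd1 hd2
    have hex := exc_INX μ N m a b c d hd1 hd2
    obtain ⟨ha, hb, hc, -⟩ := hd1
    obtain ⟨sa1, sa2⟩ := sgn_INX a ha
    obtain ⟨sb1, sb2⟩ := sgn_INX b hb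
    obtain ⟨sc1, sc2⟩ := sgn_INX c hc
    have hEm : (a.sign, b.sign, c.sign) ∈ E := by
      rw [hE, Finset.mem_product, Finset.mem_product]
      exact ⟨sa1, sb1, sc1⟩
    have ba : 1 ≤ a.natAbs ∧ a.natAbs ≤ N := by omega
    have bb : 1 ≤ b.natAbs ∧ b.natAbs ≤ N := by omega
    have bc : 1 ≤ c.natAbs ∧ c.natAbs ≤ m := by omega
    rw [hW, Finset.mem_biUnion]
    have hcase : (Ex1 μ N m a.natAbs b.natAbs c.natAbs ∨ Ex2 μ N m a.natAbs b.natAbs c.natAbs) ∨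
        Ex2 μ N m b.natAbs a.natAbs c.natAbs := by tauto
    rcases hcase with h | h
    · refine ⟨(true, (a.sign, b.sign, c.sign)), Finset.mem_product.2 ⟨Finset.mem_univ _, hEm⟩, ?_⟩
      rw [Finset.mem_image]
      refine ⟨(a.natAbs, b.natAbs, c.natAbs), ?_, ?_⟩
      · rw [hS, Finset.mem_filter, Finset.mem_product, Finset.mem_product, Finset.mem_Icc,
          Finset.mem_Icc, Finset.mem_Icc]
        exact ⟨⟨ba, bb, bc⟩, h⟩
      · simp only [hg, if_true]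
        rw [sa2, sb2, sc2]
    · refine ⟨(false, (a.sign, b.sign, c.sign)), Finset.mem_product.2 ⟨Finset.mem_univ _, hEm⟩, ?_⟩
      rw [Finset.mem_image]
      refine ⟨(b.natAbs, a.natAbs, c.natAbs), ?_, ?_⟩
      · rw [hS, Finset.mem_filter, Finset.mem_product, Finset.mem_product, Finset.mem_Icc,
          Finset.mem_Icc, Finset.mem_Icc]
        exact ⟨⟨bb, ba, bc⟩, Or.inr h⟩
      · simp only [hg, Bool.false_eq_true, if_false]
        rw [sa2, sb2, sc2]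
  have hWc : W.card ≤ 16 * S.card := by
    rw [hW]
    refine (Finset.card_biUnion_le_card_mul _ _ S.card fun w _ => Finset.card_image_le).trans ?_
    have hEc : ((univ : Finset Bool) ×ˢ E).card = 16 := by
      rw [hE]; decide
    rw [hEc]
  have hmR : (1 : ℝ) ≤ m := by exact_mod_cast hm1
  have hm0' : (0 : ℝ) < m := by linarith
  have hfin : (((((Icc (-(N : ℤ)) N) ×ˢ (Icc (-(N : ℤ)) N) ×ˢ (Icc (-(m : ℤ)) m)).filter
      (fun v : ℤ × ℤ × ℤ => ∃ d : ℤ, Admissible v.1 v.2.1 v.2.2 d ∧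
      ¬ Solv v.1 v.2.1 v.2.2 d
        (bd μ N m ((max 3 (max |v.1| (max |v.2.1| |v.2.2|)) : ℤ) : ℝ) d)))).card : ℝ) ≤
      16 * (S.card : ℝ) := by
    exact_mod_cast (Finset.card_le_card hsub).trans hWc
  refine hfin.trans ?_
  have hNN : (0 : ℝ) ≤ (N : ℝ) ^ 2 := by positivity
  have hpow : (m : ℝ) ^ (1 - δ' / 2) = (m : ℝ) ^ (1 - δ') * (m : ℝ) ^ (δ' / 2) := by
    rw [← Real.rpow_add hm0']
    congr 1
    ring
  have hp0 : (0 : ℝ) ≤ (m : ℝ) ^ (1 - δ') := Real.rpow_nonneg hm0'.le _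
  calc 16 * (S.card : ℝ) ≤ 16 * ((N : ℝ) ^ 2 * (m : ℝ) ^ (1 - δ')) := by
        exact mul_le_mul_of_nonneg_left hN' (by norm_num)
    _ = ((N : ℝ) ^ 2 * (m : ℝ) ^ (1 - δ')) * 16 := by ring
    _ ≤ ((N : ℝ) ^ 2 * (m : ℝ) ^ (1 - δ')) * (m : ℝ) ^ (δ' / 2) :=
        mul_le_mul_of_nonneg_left h16 (mul_nonneg hNN hp0)
    _ = (N : ℝ) ^ 2 * (m : ℝ) ^ (1 - δ' / 2) := by rw [hpow]; ring

end Pool.Agent.Helper84.PB
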